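import Mathlib

/-!
# MP_5ee2d0_ag: termination over one prime divisor of the base, all types of special fibres

`Δ` is the local ring of a prime divisor `b` of the base (of `Mbar`), or a smooth curve germ;
`YY_0 → Δ` is projective, `YY_0` is `Q`-factorial and terminal of relative dimension three, its
canonical class is trivial, the special fibre `F_0 = Σ V_i` is reduced and `(YY_0, F_0)` is log
canonical. (A `Q`-factorial dlt model `(XX, X_b)` with trivial canonical class and reduced `X_b` is of
this kind; in general take a `Q`-factorial terminalisation.) `L` is an integral class which is nef on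
the generic fibre, `s_i` are real numbers, `H` is nef and big (the pull back of an ample class of `XX`),
`N = L - Σ s_i V_i`, and `N + d H` is a limit of movable classes for all `d > 0`.

The steps of the minimal model program for `N + d H`, `d` decreasing to zero, are small and trivial
for `K` (flops), all `YY_j` are `Q`-factorial terminal, and `(YY_j, F_j)` is log canonical. We show that
there are only finitely many steps. The proof looks at the prime divisors `E` over `YY_j` with
discrepancy one: the blow up of a surface `G` of `YY_j` is such an `E` since a terminal variety is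
smooth in codimension two. As long as its centre is a surface, `E` can only lose integral multiples of
the `1` and `s_i`; and almost all of them lose less than the smallest positive number of this kind.
So after finitely many steps no surface is created, and the classical argument of Kawamata, Matsuda and
Matsuki applies.
-/

namespace Pool.Agent.H81.MN

open Filter Topology

/-- An infinite sequence of steps `YY_0 ⇢ YY_1 ⇢ ...`. -/
structure Run where
  /-- the threshold of step `j`: it is trivial on `N + d_j H` and negative on `N` -/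
  d : ℕ → ℝ
  pos : ∀ j, 0 < d j
  anti : Antitone d
  /-- Birkar, Cascini, Hacon, McKernan: `N + d H` is big, so above a positive number there are only
  finitely many thresholds -/
  lim : Tendsto d atTop (𝓝 0)
  /-- the components `V_i` of the special fibre and their coefficients in `N` -/
  I : Type
  [fin : Fintype I]
  s : I → ℝ
  /-- the exceptional prime divisors over `YY_j` with centre in `F_j` and discrepancy one; they are the
  same for all `j` since the steps are small and trivial for `K` -/
  A : Type
  /-- the centre of `E` on `YY_j` is a surface -/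
  Surf : ℕ → A → Prop
  /-- the centre of `E` on `YY_j` lies in the locus of step `j`; equivalently, its centre on
  `YY_(j+1)` lies in the locus created by the step -/
  Inv : ℕ → A → Prop
  /-- the multiplicities along `E` of the pull backs of (the strict transforms on `YY_j` of) one
  integral divisor in the class `L`, of the `V_i`, and of a divisor in the class `H` -/
  ordL : ℕ → A → ℝ
  ordV : ℕ → A → I → ℝ
  ordH : ℕ → A → ℝ
  /-- a terminal variety is smooth in codimension two, so divisors are Cartier at the general point of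
  a surface -/
  intL : ∀ j E, Surf j E → ∃ z : ℤ, ordL j E = z
  /-- the log discrepancy of `E` for `(YY_j, F_j)` is `2 - Σ ord_E(V_i) ≥ 0` -/
  intV : ∀ j E i, Surf j E → ∃ z : ℤ, ordV j E i = z ∧ 0 ≤ z ∧ z ≤ 2
  /-- negativity lemma: `p^*N_j - q^*N_(j+1)` is effective and its support is the preimage of the locus
  of the step -/
  drop : ∀ j E, ordL (j + 1) E - ∑ i, s i * ordV (j + 1) E i ≤ ordL j E - ∑ i, s i * ordV j E i
  drop_lt : ∀ j E, Inv j E →
    ordL (j + 1) E - ∑ i, s i * ordV (j + 1) E i < ordL j E - ∑ i, s i * ordV j E i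
  /-- the step is trivial on `N + d_j H` -/
  triv : ∀ j E, ordL (j + 1) E - ∑ i, s i * ordV (j + 1) E i + d j * ordH (j + 1) E =
    ordL j E - ∑ i, s i * ordV j E i + d j * ordH j E
  /-- outside its locus the step is an isomorphism -/
  keep : ∀ j E, ¬ Inv j E → Surf j E → Surf (j + 1) E
  /-- Let `W` be a log resolution of `YY_0`, an isomorphism over the regular locus, with a divisor as
  exceptional locus. The discrepancies of the exceptional divisors of `W` are positive integers, so a
  divisor which is exceptional over `W` has discrepancy at least two if its centre lies in the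
  exceptional locus, and also if it is a centre of codimension at least three in a regular point. -/
  off : {E | ¬ Surf 0 E}.Finite
  /-- the centre of `E` on `YY_0` lies in `V_i` -/
  On : A → I → Prop
  on : ∀ E, ∃ i, On E i
  /-- the degrees of `N_0` and of `H_0` on `V_i`, with respect to the square of a very ample divisor of
  `YY_0` -/
  n : I → ℝ
  h : I → ℝ
  /-- `M = N_j + d_j H_j` is nef on `YY_j`, so its strict transform on `YY_0` is a limit of classes of
  effective divisors which do not contain `V_i` and the degree of which on `V_i` is at least the sum of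
  their multiplicities along the surfaces in `V_i` (surfaces have degree at least one). The
  multiplicities are the coefficients of the pull back of `N_0 + d_j H_0` minus the pull back of `M`. -/
  bound : ∀ i j (S : Finset A), (∀ E ∈ S, Surf 0 E ∧ On E i) →
    ∑ E ∈ S, ((ordL 0 E - ∑ k, s k * ordV 0 E k + d j * ordH 0 E) -
      (ordL j E - ∑ k, s k * ordV j E k + d j * ordH j E)) ≤ n i + d j * h i
  /-- Zariski's lemma: on a resolution `W` of `YY_0` on which `E` is a divisor, the pull back of
  `N_0 + d_j H_0` minus the (push forward to `W` of the) pull back of `M` has nonnegative coefficients,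
  which are zero for the `V_i`, and `M.Γ.A^2 ≥ 0` for the components `Γ` of the connected special fibre
  of `W` and an ample divisor `A` of `W` -/
  zariski : ∀ E, ∃ c : ℝ, ∀ j, ((ordL 0 E - ∑ i, s i * ordV 0 E i + d j * ordH 0 E) -
      (ordL j E - ∑ i, s i * ordV j E i + d j * ordH j E)) ≤ c
  /-- the dimension of the span of the classes of surfaces in `H_4(F_j, Q)` (after an embedding of the
  residue field in the complex numbers) -/
  rk : ℕ → ℕ
  /-- Kawamata, Matsuda, Matsuki 1987, 5-1-15 to 5-1-17, and Matsuki 1991 for flops: if the locus created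
  by step `j` in `YY_(j+1)` contains no surface then the locus of the step contains a surface, and the
  dimension drops. If it contains a surface `G`, let `E` be the blow up of `G`. -/
  kmm : ∀ j, (∀ E, Inv j E → ¬ Surf (j + 1) E) → rk (j + 1) < rk j

attribute [instance] Run.fin

namespace Run

variable (R : Run)

/-- the multiplicity of the pull back of `N_j` -/
def m (j : ℕ) (E : R.A) : ℝ := R.ordL j E - ∑ i, R.s i * R.ordV j E i

theorem anti_m (E : R.A) : Antitone fun j => R.m j E :=
  antitone_nat_of_succ_le fun j => R.drop j E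

/-- if the sums of the drops, weighted by `1 - d_K / d_i`, are bounded then the sums are -/
theorem limit_bound (e : ℕ → ℝ) (he : ∀ i, 0 ≤ e i) (a b : ℝ)
    (h : ∀ K, ∑ i ∈ Finset.range K, (1 - R.d K / R.d i) * e i ≤ a + R.d K * b) (j : ℕ) :
    ∑ i ∈ Finset.range j, e i ≤ a := by
  have h5 : ∀ K, j ≤ K → ∑ i ∈ Finset.range j, (1 - R.d K / R.d i) * e i ≤ a + R.d K * b := by
    intro K hK
    refine le_trans (Finset.sum_le_sum_of_subset_of_nonneg (Finset.range_mono hK) ?_) (h K)
    intro i hi _
    have hjK : i < K := Finset.mem_range.1 hi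
    have : R.d K / R.d i ≤ 1 := by
      rw [div_le_one (R.pos i)]
      exact R.anti hjK.le
    exact mul_nonneg (by linarith) (he i)
  have h6 : Tendsto (fun K => ∑ i ∈ Finset.range j, (1 - R.d K / R.d i) * e i) atTop
      (𝓝 (∑ i ∈ Finset.range j, (1 - 0 / R.d i) * e i)) := by
    refine tendsto_finsetSum _ fun i _ => ?_
    exact ((tendsto_const_nhds.sub (R.lim.div_const _)).mul_const _)
  have h7 : Tendsto (fun K => a + R.d K * b) atTop (𝓝 (a + 0 * b)) :=
    tendsto_const_nhds.add (R.lim.mul_const _)
  have h8 := le_of_tendsto_of_tendsto h6 h7 (eventually_atTop.2 ⟨j, fun K hK => h5 K hK⟩)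
  simpa using h8

/-- the coefficient of `N_0 + d_j H_0` minus the pull back of `N_j + d_j H_j` -/
theorem coeff (E : R.A) (j K : ℕ) :
    (R.m 0 E + R.d K * R.ordH 0 E) - (R.m j E + R.d K * R.ordH j E) =
      ∑ i ∈ Finset.range j, (1 - R.d K / R.d i) * (R.m i E - R.m (i + 1) E) := by
  induction j with
  | zero => simp
  | succ j ih =>
    rw [Finset.sum_range_succ, ← ih]
    have h1 := R.triv j E
    have hp := (R.pos j).ne'
    have h2 : R.ordH (j + 1) E = R.ordH j E + (R.m j E - R.m (j + 1) E) / R.d j := by
      field_simp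
      unfold m
      linarith
    rw [h2]
    field_simp
    ring

theorem total (E : R.A) (j : ℕ) :
    ∑ i ∈ Finset.range j, (R.m i E - R.m (i + 1) E) = R.m 0 E - R.m j E := by
  induction j with
  | zero => simp
  | succ j ih => rw [Finset.sum_range_succ, ih]; ring

/-- the loss of one prime divisor is bounded -/
theorem bdd (E : R.A) : ∃ c : ℝ, ∀ j, R.m 0 E - R.m j E ≤ c := by
  obtain ⟨c, hc⟩ := R.zariski E
  refine ⟨c, fun j => ?_⟩
  rw [← total]
  refine R.limit_bound (fun i => R.m i E - R.m (i + 1) E)
    (fun i => sub_nonneg.2 (R.anti_m E (Nat.le_succ i))) c 0 (fun K => ?_) j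
  rw [← R.coeff E K K]
  have := hc K
  unfold m
  linarith

/-- the total loss of the surfaces of `YY_0` is bounded -/
theorem bdd_sum (i : R.I) (S : Finset R.A) (hS : ∀ E ∈ S, R.Surf 0 E ∧ R.On E i) (j : ℕ) :
    ∑ E ∈ S, (R.m 0 E - R.m j E) ≤ R.n i := by
  have h1 : ∑ E ∈ S, (R.m 0 E - R.m j E) =
      ∑ l ∈ Finset.range j, ∑ E ∈ S, (R.m l E - R.m (l + 1) E) := by
    rw [Finset.sum_comm]
    exact Finset.sum_congr rfl fun E _ => (R.total E j).symm
  rw [h1]
  refine R.limit_bound (fun l => ∑ E ∈ S, (R.m l E - R.m (l + 1) E)) (fun l =>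
    Finset.sum_nonneg fun E _ => sub_nonneg.2 (R.anti_m E (Nat.le_succ l))) (R.n i) (R.h i)
    (fun K => ?_) j
  have h2 : ∑ l ∈ Finset.range K, (1 - R.d K / R.d l) * ∑ E ∈ S, (R.m l E - R.m (l + 1) E) =
      ∑ E ∈ S, ((R.m 0 E + R.d K * R.ordH 0 E) - (R.m K E + R.d K * R.ordH K E)) := by
    rw [Finset.sum_congr rfl fun E _ => R.coeff E K K, Finset.sum_comm]
    exact Finset.sum_congr rfl fun l _ => Finset.mul_sum _ _ _
  rw [h2]
  exact R.bound i K S hS

/-- the positive values of `z - Σ s_i v_i`, `|v_i| ≤ 2`, are bounded below by a positive number -/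
theorem exists_gap : ∃ c : ℝ, 0 < c ∧ ∀ (z : ℤ) (v : R.I → ℤ), (∀ i, |v i| ≤ 2) →
    0 < (z : ℝ) - ∑ i, R.s i * v i → c ≤ (z : ℝ) - ∑ i, R.s i * v i := by
  classical
  have hfin : {f : R.I → ℤ | ∀ i, f i ∈ Set.Icc (-2 : ℤ) 2}.Finite :=
    Set.Finite.pi' fun _ => Set.finite_Icc _ _
  have h1 : ∀ r : ℝ, ∃ c : ℝ, 0 < c ∧ ∀ z : ℤ, 0 < (z : ℝ) - r → c ≤ (z : ℝ) - r := by
    intro r
    refine ⟨(⌊r⌋ + 1 : ℤ) - r, ?_, fun z hz => ?_⟩
    · push_cast
      linarith [Int.lt_floor_add_one r]
    · have h2 : ⌊r⌋ < z := Int.floor_lt.2 (by linarith)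
      have h3 : ⌊r⌋ + 1 ≤ z := h2
      have h4 : ((⌊r⌋ + 1 : ℤ) : ℝ) ≤ z := by exact_mod_cast h3
      linarith
  choose c hc0 hc using h1
  let T : Finset (R.I → ℤ) := hfin.toFinset
  have hT : T.Nonempty := ⟨0, hfin.mem_toFinset.2 fun i => by simp⟩
  refine ⟨T.inf' hT fun v => c (∑ i, R.s i * v i), ?_, ?_⟩
  · rw [Finset.lt_inf'_iff]
    exact fun v _ => hc0 _
  · intro z v hv hpos
    have hvT : v ∈ T := hfin.mem_toFinset.2 fun i => abs_le.1 (hv i)
    exact (Finset.inf'_le _ hvT).trans (hc _ z hpos)

/-- between two times when the centre is a surface the loss is zero or at least `c` -/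
theorem gap {c : ℝ} (hc : ∀ (z : ℤ) (v : R.I → ℤ), (∀ i, |v i| ≤ 2) →
    0 < (z : ℝ) - ∑ i, R.s i * v i → c ≤ (z : ℝ) - ∑ i, R.s i * v i) {i j : ℕ} {E : R.A}
    (hi : R.Surf i E) (hj : R.Surf j E) (h : R.m j E < R.m i E) : c ≤ R.m i E - R.m j E := by
  obtain ⟨a, ha⟩ := R.intL i E hi
  obtain ⟨b, hb⟩ := R.intL j E hj
  have hv := fun k => R.intV i E k hi
  have hw := fun k => R.intV j E k hj
  choose v hv using hv
  choose w hw using hw
  have h1 : R.m i E - R.m j E = ((a - b : ℤ) : ℝ) - ∑ k, R.s k * ((v k - w k : ℤ) : ℝ) := by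
    unfold m
    rw [ha, hb]
    have : ∑ k, R.s k * ((v k - w k : ℤ) : ℝ) =
        ∑ k, R.s k * R.ordV i E k - ∑ k, R.s k * R.ordV j E k := by
      rw [← Finset.sum_sub_distrib]
      refine Finset.sum_congr rfl fun k _ => ?_
      rw [(hv k).1, (hw k).1]
      push_cast
      ring
    rw [this]
    push_cast
    ring
  rw [h1]
  refine hc _ (fun k => v k - w k) (fun k => ?_) ?_
  · have := (hv k).2
    have := (hw k).2
    rw [abs_le]
    constructor <;> omega
  · change 0 < ((a - b : ℤ) : ℝ) - ∑ k, R.s k * ((v k - w k : ℤ) : ℝ)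
    rw [← h1]
    linarith

/-- the prime divisors which lose at least `c` are finitely many -/
theorem finite_losing {c : ℝ} (hc : 0 < c) :
    {E | ¬ R.Surf 0 E ∨ ∃ j, c ≤ R.m 0 E - R.m j E}.Finite := by
  have h1 : ∀ i, {E | R.Surf 0 E ∧ R.On E i ∧ ∃ j, c ≤ R.m 0 E - R.m j E}.Finite := by
    intro i
    by_contra hinf
    obtain ⟨N, hN⟩ := exists_nat_gt (R.n i / c)
    obtain ⟨S, hS, hcard⟩ := (show Set.Infinite _ from hinf).exists_subset_card_eq N
    have hS' : ∀ E ∈ S, ∃ j, c ≤ R.m 0 E - R.m j E := fun E hE => (hS hE).2.2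
    choose! k hk using hS'
    have h2 : (N : ℝ) * c ≤ ∑ E ∈ S, (R.m 0 E - R.m (S.sup k) E) := by
      rw [← hcard, ← nsmul_eq_mul]
      refine Finset.card_nsmul_le_sum _ _ _ fun E hE => ?_
      have h3 : R.m (S.sup k) E ≤ R.m (k E) E := R.anti_m E (Finset.le_sup hE)
      linarith [hk E hE]
    have h3 := R.bdd_sum i S (fun E hE => ⟨(hS hE).1, (hS hE).2.1⟩) (S.sup k)
    rw [div_lt_iff₀ hc] at hN
    linarith
  refine (R.off.union (Set.finite_iUnion h1)).subset ?_
  rintro E (h | h)
  · exact Or.inl h
  · by_cases h0 : R.Surf 0 E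
    · obtain ⟨i, hi⟩ := R.on E
      exact Or.inr (Set.mem_iUnion.2 ⟨i, h0, hi, h⟩)
    · exact Or.inl h0

/-- TERMINATION: there is no infinite sequence of steps. -/
theorem false (R : Run) : False := by
  classical
  obtain ⟨c, hc0, hc⟩ := R.exists_gap
  -- each prime divisor: after finitely many steps its centre is not a surface after a step which
  -- involves it
  have h1 : ∀ E, ∃ J, ∀ j, J ≤ j → R.Inv j E → ∀ i, j < i → ¬ R.Surf i E := by
    intro E
    by_contra hcon
    push Not at hcon
    have h2 : ∀ k : ℕ, ∃ t, R.Surf t E ∧ (k : ℝ) * c ≤ R.m 0 E - R.m t E := by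
      intro k
      induction k with
      | zero =>
        obtain ⟨j, -, -, i, -, hi⟩ := hcon 0
        refine ⟨i, hi, ?_⟩
        have := R.anti_m E (Nat.zero_le i)
        simp only at this
        push_cast
        linarith
      | succ k ih =>
        obtain ⟨t, ht, hk⟩ := ih
        obtain ⟨j, hj, hinv, i, hji, hi⟩ := hcon t
        have h3 : R.m i E < R.m t E := by
          have h4 := R.anti_m E hj
          have h5 := R.anti_m E (show j + 1 ≤ i from hji)
          have h6 := R.drop_lt j E hinv
          simp only at h4 h5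
          have h7 : R.m (j + 1) E < R.m j E := h6
          linarith
        have h4 := R.gap hc ht hi h3
        refine ⟨i, hi, ?_⟩
        push_cast
        linarith
    obtain ⟨b, hb⟩ := R.bdd E
    obtain ⟨k, hk⟩ := exists_nat_gt (b / c)
    obtain ⟨t, -, ht⟩ := h2 k
    rw [div_lt_iff₀ hc0] at hk
    linarith [hb t]
  choose J hJ using h1
  -- a common bound
  have h2 : ∃ K, ∀ E, ∀ j, K ≤ j → R.Inv j E → ¬ R.Surf (j + 1) E := by
    let T := (R.finite_losing hc0).toFinset
    refine ⟨T.sup J, fun E j hj hinv hs => ?_⟩
    by_cases hE : E ∈ T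
    · exact hJ E j ((Finset.le_sup hE).trans hj) hinv (j + 1) (Nat.lt_succ_self j) hs
    · have hE' : ¬ (¬ R.Surf 0 E ∨ ∃ j, c ≤ R.m 0 E - R.m j E) := fun h =>
        hE ((R.finite_losing hc0).mem_toFinset.2 h)
      rw [not_or, not_not, not_exists] at hE'
      obtain ⟨h0, hlose⟩ := hE'
      have hex : ∃ j, R.Inv j E := ⟨j, hinv⟩
      have hle : Nat.find hex ≤ j := Nat.find_min' hex hinv
      have hsurf : ∀ i, i ≤ Nat.find hex → R.Surf i E := by
        intro i
        induction i with
        | zero => exact fun _ => h0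
        | succ i ih => exact fun h => R.keep i E (Nat.find_min hex h) (ih (Nat.le_of_succ_le h))
      have h3 := R.anti_m E (show Nat.find hex + 1 ≤ j + 1 by omega)
      have h4 : R.m (Nat.find hex + 1) E < R.m (Nat.find hex) E :=
        R.drop_lt _ E (Nat.find_spec hex)
      simp only at h3
      have h5 := R.gap hc (hsurf _ le_rfl) hs (lt_of_le_of_lt h3 h4)
      have h6 := R.anti_m E (Nat.zero_le (Nat.find hex))
      simp only at h6
      exact hlose (j + 1) (by linarith)
  obtain ⟨K, hK⟩ := h2
  have h3 : ∀ k, R.rk (K + k) + k ≤ R.rk K := by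
    intro k
    induction k with
    | zero => simp
    | succ k ih =>
      have := R.kmm (K + k) fun E hE => hK E (K + k) (Nat.le_add_right K k) hE
      have h4 : K + (k + 1) = K + k + 1 := rfl
      rw [h4]
      omega
  have := h3 (R.rk K + 1)
  omega

end Run

end Pool.Agent.H81.MN
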