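import Pool.Agent.H33.MN.Iface
import Pool.Agent.H85.MS.Rat
import Pool.Agent.H81.MN.Termination

/-!
# MP_5ee2d0_ag: a nef class of the generic fibre has a nef extension on some model; all types

The models `XX → Δ` are projective and `Q`-factorial with trivial canonical class, the special fibre
`Σ V_i` is reduced and `(XX, Σ V_i)` is log canonical. They are terminal; if the special fibre is
irreducible or a chain they may also be canonical. There is no assumption on the number of the
components, on their intersections or on the monodromy.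
-/

namespace Pool.Agent.H81.MN

open Pool.Agent.H33.MN Filter Topology

/-- The divisor classes of the models over the local ring of one prime divisor of the base. -/
structure DivSpace {P : Type} [AddCommGroup P] (g : Germ P) where
  /-- the components of the special fibre, all but one of them; the special fibre is connected and
  the sum of all its components is zero -/
  I : Type
  [fin : Fintype I]
  /-- the class of a component -/
  V : I → g.Lam
  /-- the components do not meet the generic fibre -/
  rho_V : ∀ i, g.rho (V i) = 0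
  /-- the real classes of divisors up to numerical equivalence over the base, the same space for all
  small modifications -/
  N : Type
  [grpN : NormedAddCommGroup N]
  [spN : NormedSpace ℝ N]
  cl : g.Lam →+ N
  /-- an ample class of one model -/
  H : N

attribute [instance] DivSpace.fin DivSpace.grpN DivSpace.spN

/-- the real class `x - Σ s_i V_i + d H` -/
noncomputable def DivSpace.tw {P : Type} [AddCommGroup P] {g : Germ P} (D : DivSpace g)
    (x : g.Lam) (s : D.I → ℝ) (d : ℝ) : D.N :=
  D.cl x - ∑ i, s i • D.cl (D.V i) + d • D.H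

/-- Movable and nef classes of the models over the local ring of one prime divisor of the base. -/
structure NefGerm {P : Type} [AddCommGroup P] (g : Germ P) (NefG : P → Prop) extends
    DivSpace g where
  /-- the closed movable cone: limits of classes of divisors a multiple of which has no fixed
  components -/
  Mov : Set N
  closed : IsClosed Mov
  add_mem : ∀ x y, x ∈ Mov → y ∈ Mov → x + y ∈ Mov
  smul_mem : ∀ (r : ℝ) x, 0 ≤ r → x ∈ Mov → r • x ∈ Mov
  H_mem : H ∈ Mov
  /-- Zariski's lemma (negativity lemma): a movable class with support in the special fibre is zero;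
  otherwise its restriction to a component with the largest coefficient is not pseudoeffective -/
  neg : ∀ s, toDivSpace.tw 0 s 0 ∈ Mov → s = 0
  /-- `L + (1/n) H` is ample on the generic fibre; so the fixed components of a large multiple of it
  are components of the special fibre -/
  gen : ∀ x, NefG (g.rho x) → ∀ n : ℕ, 0 < n → ∃ s, toDivSpace.tw x s (1 / n) ∈ Mov
  /-- nef classes of the models -/
  NefR : g.Mo → N → Prop
  nef_cl : ∀ mu x, NefR mu (cl x) → g.Nef mu x
  nef_smul : ∀ mu (r : ℝ) x, 0 ≤ r → NefR mu x → NefR mu (r • x)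
  /-- Birkar, Cascini, Hacon and McKernan: the minimal model program for `N = x - Σ s_i V_i + d H`, `d`
  tending to zero, has only small steps since these classes are in the interior of the movable cone,
  and only finitely many of them over an interval bounded away from zero. If it stops then `N` is nef
  on the last model; otherwise its infinitely many steps have the properties listed in `Run`, all of
  them published facts. That there is no infinite sequence is not assumed but proved (`Run.false`).
  (For canonical models the steps are lifted to a `Q`-factorial terminalisation; its exceptional divisors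
  have a double surface `D` of the chain as centre, and `D` is in no flipping locus: otherwise the curves
  of the ray in `D` would be negative for both components `V`, `V'` which contain `D`, by the negativity
  lemma on each of them, but `V + V'` is zero near `D`.) -/
  mmp : ∀ x s, NefG (g.rho x) → (∀ d : ℝ, 0 < d → toDivSpace.tw x s d ∈ Mov) →
    (∃ mu, NefR mu (toDivSpace.tw x s 0)) ∨ Nonempty Run
  /-- rational curves in the special fibre of a model `mu` which generate extremal rays on which some
  component is not zero, one curve of minimal degree for each of these extremal rays -/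
  Ray : g.Mo → Type
  /-- the intersection number -/
  deg : ∀ mu, Ray mu → N → ℝ
  deg_add : ∀ mu C x y, deg mu C (x + y) = deg mu C x + deg mu C y
  deg_smul : ∀ mu C (r : ℝ) x, deg mu C (r • x) = r * deg mu C x
  deg_nef : ∀ mu C x, NefR mu x → 0 ≤ deg mu C x
  /-- Cone theorem (Kawamata, Kollár, Mori, Shokurov): `N' = x - Σ t_i V_i` is numerically the sum of
  the nef class `x - Σ s_i V_i` and an effective combination `D` of all components, and `(mu, ε D)` is
  klt for small `ε > 0`. So if `N'` is not nef then it is negative on an extremal ray on which `D`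
  is negative. -/
  cone : ∀ mu x s t, NefR mu (toDivSpace.tw x s 0) → (∀ C, 0 ≤ deg mu C (toDivSpace.tw x t 0)) →
    NefR mu (toDivSpace.tw x t 0)
  /-- the model is `Q`-factorial, the group of classes is finitely generated -/
  ind : g.Mo → ℕ
  ind_pos : ∀ mu, 0 < ind mu
  int : ∀ mu C x, ∃ z : ℤ, ind mu * deg mu C (cl x) = z
  /-- Kawamata 1991: let `D` be the sum of the components (of all components) which are negative on the
  curve; the pairs `(mu, c D)`, `c < 1`, are klt, so the degree of `- D` is at most twice the dimension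
  of the fibres of the contraction. The sum of all components is zero. -/
  bound : ∀ mu C i, |deg mu C (cl (V i))| ≤ 6

namespace NefGerm

variable {P : Type} [AddCommGroup P] {g : Germ P} {NefG : P → Prop} (S : NefGerm g NefG)

/-- the vertical coefficients for which the class is movable after adding `d H` -/
def K (x : g.Lam) (d : ℝ) : Set (S.I → ℝ) := {s | S.tw x s d ∈ S.Mov}

theorem continuous_tw (x : g.Lam) (d : ℝ) : Continuous fun s => S.tw x s d := by
  unfold DivSpace.tw
  fun_prop

theorem isClosed_K (x : g.Lam) (d : ℝ) : IsClosed (S.K x d) :=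
  S.closed.preimage (S.continuous_tw x d)

theorem K_anti (x : g.Lam) {d e : ℝ} (h : d ≤ e) : S.K x d ⊆ S.K x e := by
  intro s hs
  have h1 := S.add_mem _ _ hs (S.smul_mem (e - d) S.H (sub_nonneg.2 h) S.H_mem)
  have h2 : S.tw x s d + (e - d) • S.H = S.tw x s e := by
    unfold DivSpace.tw
    rw [add_assoc, ← add_smul]
    congr 2
    ring
  rw [h2] at h1
  exact h1

/-- the vertical coefficients are bounded -/
theorem isBounded_K (x : g.Lam) (d : ℝ) : Bornology.IsBounded (S.K x d) := by
  by_contra hb
  -- a sequence of elements of norm at least `n + 1`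
  have h1 : ∀ n : ℕ, ∃ s ∈ S.K x d, (n : ℝ) + 1 ≤ ‖s‖ := by
    intro n
    by_contra hcon
    push Not at hcon
    exact hb (isBounded_iff_forall_norm_le.2 ⟨(n : ℝ) + 1, fun s hs => (hcon s hs).le⟩)
  choose s hs hn using h1
  have hpos : ∀ n, 0 < ‖s n‖ := fun n => lt_of_lt_of_le (by positivity) (hn n)
  -- the directions
  let u : ℕ → S.I → ℝ := fun n => (‖s n‖)⁻¹ • s n
  have hu : ∀ n, u n ∈ Metric.sphere (0 : S.I → ℝ) 1 := by
    intro n
    rw [mem_sphere_zero_iff_norm]
    simp only [u, norm_smul, norm_inv, norm_norm]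
    exact inv_mul_cancel₀ (hpos n).ne'
  obtain ⟨v, hv, φ, hφ, hlim⟩ := (isCompact_sphere (0 : S.I → ℝ) 1).tendsto_subseq hu
  have hinv : Tendsto (fun n => (‖s (φ n)‖)⁻¹) atTop (𝓝 0) := by
    refine Tendsto.inv_tendsto_atTop (tendsto_atTop_mono (fun n => ?_)
      (tendsto_natCast_atTop_atTop (R := ℝ)))
    have h2 := hn (φ n)
    have h3 : (n : ℝ) ≤ φ n := by exact_mod_cast hφ.id_le n
    linarith
  have hmem : ∀ n, (‖s (φ n)‖)⁻¹ • S.cl x - ∑ i, u (φ n) i • S.cl (S.V i) +
      ((‖s (φ n)‖)⁻¹ * d) • S.H ∈ S.Mov := by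
    intro n
    have h2 := S.smul_mem (‖s (φ n)‖)⁻¹ _ (inv_nonneg.2 (norm_nonneg _)) (hs (φ n))
    have h3 : (‖s (φ n)‖)⁻¹ • S.tw x (s (φ n)) d =
        (‖s (φ n)‖)⁻¹ • S.cl x - ∑ i, u (φ n) i • S.cl (S.V i) +
          ((‖s (φ n)‖)⁻¹ * d) • S.H := by
      simp only [DivSpace.tw, u, smul_add, smul_sub, Finset.smul_sum, smul_smul, Pi.smul_apply,
        smul_eq_mul]
    rw [h3] at h2
    exact h2
  have hl1 : Tendsto (fun n => (‖s (φ n)‖)⁻¹ • S.cl x - ∑ i, u (φ n) i • S.cl (S.V i) +
      ((‖s (φ n)‖)⁻¹ * d) • S.H) atTop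
      (𝓝 ((0 : ℝ) • S.cl x - ∑ i, v i • S.cl (S.V i) + ((0 : ℝ) * d) • S.H)) := by
    refine Tendsto.add (Tendsto.sub (hinv.smul_const _) (tendsto_finsetSum _ fun i _ => ?_))
      ((hinv.mul_const d).smul_const _)
    exact ((tendsto_pi_nhds.1 hlim) i).smul_const _
  have h4 := S.closed.mem_of_tendsto hl1 (Eventually.of_forall hmem)
  have h5 := S.neg v (by
    unfold DivSpace.tw
    rw [zero_smul, zero_mul] at h4
    rw [map_zero]
    exact h4)
  rw [h5, mem_sphere_zero_iff_norm, norm_zero] at hv
  exact zero_ne_one hv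

theorem isCompact_K (x : g.Lam) (d : ℝ) : IsCompact (S.K x d) :=
  Metric.isCompact_of_isClosed_isBounded (S.isClosed_K x d) (S.isBounded_K x d)

/-- there are real vertical coefficients which are good for all `d > 0` -/
theorem exists_real (x : g.Lam) (hx : NefG (g.rho x)) : ∃ s, ∀ d : ℝ, 0 < d → s ∈ S.K x d := by
  have h1 : (⋂ n : ℕ, S.K x (1 / ((n : ℝ) + 1))).Nonempty := by
    refine IsCompact.nonempty_iInter_of_sequence_nonempty_isCompact_isClosed _ ?_ ?_ ?_ ?_
    · intro n
      refine S.K_anti x ?_
      push_cast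
      exact one_div_le_one_div_of_le (by positivity) (by linarith)
    · intro n
      obtain ⟨s, hs⟩ := S.gen x hx (n + 1) (Nat.succ_pos n)
      refine ⟨s, ?_⟩
      change S.tw x s (1 / ((n : ℝ) + 1)) ∈ S.Mov
      push_cast at hs
      exact hs
    · exact S.isCompact_K x _
    · exact fun n => S.isClosed_K x _
  obtain ⟨s, hs⟩ := h1
  refine ⟨s, fun d hd => ?_⟩
  obtain ⟨n, hn⟩ := exists_nat_one_div_lt hd
  exact S.K_anti x hn.le (Set.mem_iInter.1 hs n)

/-- the intersection number as a linear form -/
noncomputable def lin (mu : g.Mo) (C : S.Ray mu) : S.N →ₗ[ℝ] ℝ where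
  toFun := S.deg mu C
  map_add' := S.deg_add mu C
  map_smul' := S.deg_smul mu C

theorem deg_tw (mu : g.Mo) (C : S.Ray mu) (x : g.Lam) (s : S.I → ℝ) :
    S.deg mu C (S.tw x s 0) =
      S.deg mu C (S.cl x) - ∑ i, s i * S.deg mu C (S.cl (S.V i)) := by
  change S.lin mu C (S.tw x s 0) = S.lin mu C (S.cl x) - ∑ i, s i * S.lin mu C (S.cl (S.V i))
  simp only [DivSpace.tw, map_add, map_sub, map_sum, map_smul, smul_eq_mul, zero_mul, add_zero]

/-- RATIONALITY: on the model on which `x - Σ s_i V_i` is nef there are rational coefficients. -/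
theorem exists_rational (x : g.Lam) (mu : g.Mo) (s : S.I → ℝ) (hs : S.NefR mu (S.tw x s 0)) :
    ∃ q : S.I → ℚ, S.NefR mu (S.tw x (fun i => (q i : ℝ)) 0) := by
  classical
  choose z hz using S.int mu
  have hm : (0 : ℝ) < S.ind mu := by exact_mod_cast S.ind_pos mu
  have hdeg : ∀ C y, S.deg mu C (S.cl y) = (((z C y : ℚ) / S.ind mu : ℚ) : ℝ) := by
    intro C y
    push_cast
    rw [eq_div_iff hm.ne', mul_comm]
    exact hz C y
  -- the real solution
  have h1 : ∀ C, ∑ i, ((((z C (S.V i) : ℚ) / S.ind mu : ℚ)) : ℝ) * s i ≤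
      (((z C x : ℚ) / S.ind mu : ℚ) : ℝ) := by
    intro C
    have h3 := S.deg_nef mu C _ hs
    rw [deg_tw] at h3
    have h6 : ∑ i, ((((z C (S.V i) : ℚ) / S.ind mu : ℚ)) : ℝ) * s i =
        ∑ i, s i * S.deg mu C (S.cl (S.V i)) := by
      refine Finset.sum_congr rfl fun i _ => ?_
      rw [hdeg, mul_comm]
    rw [h6, ← hdeg]
    linarith
  -- finitely many vectors
  have hfin : (Set.range fun (C : S.Ray mu) (i : S.I) =>
      ((z C (S.V i) : ℚ) / S.ind mu : ℚ)).Finite := by
    have h2 : (Set.range fun (C : S.Ray mu) (i : S.I) => ((z C (S.V i) : ℚ) / S.ind mu : ℚ)) ⊆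
        {f | ∀ i, f i ∈ (fun y : ℤ => (y : ℚ) / S.ind mu) ''
          (Set.Icc (-(S.ind mu * 6 : ℤ)) (S.ind mu * 6 : ℤ))} := by
      rintro w ⟨C, rfl⟩ i
      refine ⟨z C (S.V i), ?_, rfl⟩
      have h3 := abs_le.1 (S.bound mu C i)
      have h4 := hz C (S.V i)
      have h5 : (z C (S.V i) : ℝ) ≤ S.ind mu * 6 := by
        rw [← h4]
        exact mul_le_mul_of_nonneg_left h3.2 hm.le
      have h6 : -((S.ind mu : ℝ) * 6) ≤ z C (S.V i) := by
        rw [← h4, ← mul_neg]
        exact mul_le_mul_of_nonneg_left h3.1 hm.le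
      constructor
      · have : ((-(S.ind mu * 6 : ℤ) : ℤ) : ℝ) ≤ (z C (S.V i) : ℝ) := by
          push_cast
          exact h6
        exact_mod_cast this
      · have : (z C (S.V i) : ℝ) ≤ ((S.ind mu * 6 : ℤ) : ℝ) := by
          push_cast
          exact h5
        exact_mod_cast this
    exact (Set.Finite.pi' fun _ => (Set.finite_Icc _ _).image _).subset h2
  obtain ⟨q, hq⟩ := Pool.Agent.H85.MS.exists_rat
    (fun (C : S.Ray mu) (i : S.I) => ((z C (S.V i) : ℚ) / S.ind mu : ℚ))
    (fun C => (z C x : ℚ) / S.ind mu) hfin (S.ind mu) (S.ind_pos mu)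
    (fun C => ⟨z C x, by
      have : (S.ind mu : ℚ) ≠ 0 := by exact_mod_cast (S.ind_pos mu).ne'
      field_simp⟩) s h1
  refine ⟨q, S.cone mu x s _ hs fun C => ?_⟩
  have h7 : ∑ i, (q i : ℝ) * S.deg mu C (S.cl (S.V i)) ≤ S.deg mu C (S.cl x) := by
    have h8 : ((∑ i, ((z C (S.V i) : ℚ) / S.ind mu : ℚ) * q i : ℚ) : ℝ) ≤
        (((z C x : ℚ) / S.ind mu : ℚ) : ℝ) := by exact_mod_cast hq C
    rw [hdeg C x]
    refine le_trans (le_of_eq ?_) h8
    rw [Rat.cast_sum]
    refine Finset.sum_congr rfl fun i _ => ?_
    rw [hdeg, Rat.cast_mul, mul_comm]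
  rw [deg_tw]
  linarith

/-- finitely many rational numbers have a common denominator -/
theorem exists_den {ι : Type} [Fintype ι] (q : ι → ℚ) :
    ∃ k : ℕ, 0 < k ∧ ∀ i, ∃ z : ℤ, (k : ℚ) * q i = z := by
  classical
  refine ⟨∏ i, (q i).den, Finset.prod_pos fun i _ => (q i).den_pos, fun i => ?_⟩
  obtain ⟨c, hc⟩ := Finset.dvd_prod_of_mem (fun i => (q i).den) (Finset.mem_univ i)
  refine ⟨c * (q i).num, ?_⟩
  rw [hc]
  push_cast
  have h1 : ((q i).den : ℚ) * q i = (q i).num := by
    rw [mul_comm]
    exact Rat.mul_den_eq_num (q i)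
  calc ((q i).den : ℚ) * c * q i = c * (((q i).den : ℚ) * q i) := by ring
    _ = c * (q i).num := by rw [h1]

include S in
/-- **Nef extension.** A positive multiple of a nef class `L` of the generic fibre extends to a
Cartier class of some model which is nef over the base. -/
theorem nef (L : P) (hL : NefG L) (y : g.Lam) (hy : g.rho y = L)
    (hq : ∀ mu x, ∃ k : ℕ, 0 < k ∧ ∀ j : ℕ, g.Car mu (j • k • x)) :
    ∃ (mu : g.Mo) (k : ℕ) (x : g.Lam), 0 < k ∧ g.rho x = k • L ∧ g.Nef mu x ∧
      ∀ j : ℕ, 0 < j → g.Car mu (j • x) := by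
  obtain ⟨s, hs⟩ := S.exists_real y (by rw [hy]; exact hL)
  rcases S.mmp y s (by rw [hy]; exact hL) hs with ⟨mu, hmu⟩ | ⟨⟨R⟩⟩
  swap
  · exact R.false.elim
  obtain ⟨q, hqn⟩ := S.exists_rational y mu s hmu
  obtain ⟨k, hk, hkz⟩ := exists_den q
  choose z hz using hkz
  -- an integral class
  obtain ⟨x, hxdef⟩ : ∃ x : g.Lam, x = k • y - ∑ i, z i • S.V i := ⟨_, rfl⟩
  have hx : g.rho x = k • L := by
    rw [hxdef]
    simp only [map_sub, map_nsmul, map_sum, map_zsmul, S.rho_V, smul_zero,
      Finset.sum_const_zero, sub_zero, hy]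
  have hcl : S.cl x = (k : ℝ) • S.tw y (fun i => (q i : ℝ)) 0 := by
    rw [hxdef]
    simp only [DivSpace.tw, map_sub, map_nsmul, map_sum, map_zsmul, smul_sub, Finset.smul_sum,
      zero_smul, add_zero]
    rw [Nat.cast_smul_eq_nsmul ℝ k]
    congr 1
    refine Finset.sum_congr rfl fun i _ => ?_
    rw [smul_smul, ← Int.cast_smul_eq_zsmul ℝ (z i)]
    congr 1
    exact_mod_cast (hz i).symm
  obtain ⟨e, he, hcar⟩ := hq mu x
  refine ⟨mu, e * k, e • x, Nat.mul_pos he hk, ?_, ?_, fun j _ => hcar j⟩
  · rw [map_nsmul, hx, smul_smul]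
  · refine S.nef_cl mu _ ?_
    rw [map_nsmul, hcl, ← Nat.cast_smul_eq_nsmul ℝ e]
    exact S.nef_smul mu _ _ (Nat.cast_nonneg e) (S.nef_smul mu _ _ (Nat.cast_nonneg k) hqn)

end NefGerm

end Pool.Agent.H81.MN
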