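import Pool.Agent.H81.MN.Termination

/-!
# MP_5ee2d0_ag: long liftings of sections give semiample classes; all types of special fibres

`YY → Δ` is a model over the local ring of a prime divisor of the base as in `Termination`, `t = 0` is
its special fibre `F = Σ V_i`, and `N`, a rational combination of an integral class and the `V_i`, is
nef on `YY` and its multiples have no sections on the generic fibre (below `n` runs through the
multiples of one number, so that `n N` is Cartier). Let `s` be a section of `n N` modulo `t^j` which is not zero on `F`, `j > C n`.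
Then there are a base change `t = t'^d`, a model `YY''` and a class `N''`, equal to `N` on the generic
fibre, such that `N''` is nef and its restriction to the special fibre of `YY''` is semiample. The
constant `C` depends only on `YY` and `N`; no property of the special fibre is used.

The idea: the orders of `s` along the log canonical places of `(YY, F)` define a function on the dual
complex, which is made linear on the cells by a refinement; subtracting it from `N` gives a class `N'`
and a section `s'` which vanishes at no log canonical place. The program for `N'` changes the direct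
images only by `t'^k` with `k = O(n d)`, so the section survives on all models, no component is
contracted, the program ends by `Run.false`, and abundance for semi log canonical threefolds applies.
-/

namespace Pool.Agent.H81.MN

/-- The refined model `YY'` over the base change `t = t'^d`, with the class `N'` and the section `s'`,
and the minimal model program for `N' + e H`, `e` decreasing to zero, `H` ample on `YY'`. There is a
crepant morphism from `YY'` to the base change of `YY`, so `N` is nef on `YY'`; `YY'` is a `Q`-factorial
dlt model with trivial canonical class and reduced special fibre `F'`, so it is terminal;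
`N' = N - G/n` with a divisor `0 ≤ G ≤ d c n F'`. -/
structure Refined (n c j : ℕ) (Semi : Prop) where
  d : ℕ
  d_pos : 0 < d
  /-- the prime divisors over `YY'` with centre in the special fibre -/
  Dv : Type
  /-- their multiplicities in the special fibre -/
  mult : Dv → ℕ
  mult_pos : ∀ v, 0 < mult v
  /-- log canonical places of `(YY', F')` -/
  Lc : Dv → Prop
  /-- the components of `F'` -/
  Cmp : Type
  [fin : Fintype Cmp]
  cmp : Cmp → Dv
  cmp_lc : ∀ V, Lc (cmp V)
  /-- the order of `s` along `v`, and the multiplicity of `G = Σ u(V) V` -/
  u : Dv → ℝ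
  g : Dv → ℝ
  g_cmp : ∀ V, g (cmp V) = u (cmp V)
  /-- The pair has simple normal crossings at the general points of its log canonical centres, so `v` is
  a monomial valuation, with weights `w`, and `u` is linear on the cells of the dual complex. -/
  lin : ∀ v, Lc v → ∃ w : Cmp → ℝ, u v = ∑ V, w V * u (cmp V) ∧ g v = ∑ V, w V * g (cmp V)
  /-- the models: `YY'` and the results of the steps of the program, up to the first model on which the
  program stops or contracts a divisor. All of them are small modifications of `YY'`. -/
  Mo : Type
  mu0 : Mo
  /-- the coefficients of the differences of the pull backs of `N'` (of `H`) from `YY'` and from `mu` -/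
  E : Mo → Dv → ℝ
  EH : Mo → Dv → ℝ
  /-- negativity lemma -/
  E_nonneg : ∀ mu v, 0 ≤ E mu v
  /-- `E + e EH` is the difference of the asymptotic orders of `N' + e H` along `v` on `YY'` and on `mu`
  (Nakayama 2004), so it is at most the first of them. Numerically `N' + e H` is the sum of the nef class
  `N + e H` and of the effective divisor `d c F' - G/n`, the coefficients of which are at most those
  of `d c F'`. -/
  E_le' : ∀ mu v e, 0 < e → E mu v + e * EH mu v ≤ d * c * mult v
  /-- the first direct image of `O(n N')` on `mu`, with the multiplication by `t'`. As `n N'` has no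
  sections on the generic fibre, a section of `O(n N')/t'^i` is an element `x` killed by `t'^i`. -/
  T : Mo → Type
  [grp : ∀ mu, AddCommGroup (T mu)]
  tau : ∀ mu, T mu → T mu
  /-- the order along `v` of the section of `O(n N')/t'^i` given by `x`: the minimum of `i mult v` and
  the order of a local lifting -/
  ord : ∀ mu, ℕ → T mu → Dv → ℝ
  ord_nonneg : ∀ mu i x v, (tau mu)^[i] x = 0 → 0 ≤ ord mu i x v
  /-- the section `s'` given by `s` -/
  s : T mu0
  s_kill : (tau mu0)^[d * (j - c * n)] s = 0
  ord_s : ∀ v, Lc v → ord mu0 (d * (j - c * n)) s v = u v - g v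
  /-- Let `W` be a log resolution of `YY'` and `mu`, with the round up `A` (`B`) of `K_W` plus the
  pull back of `n N'` from `YY'` (from `mu`). By the vanishing theorem of Kawamata and Viehweg `O(A)`
  and `O(B)` have the same direct images as `O(n N')` on `YY'` and `mu`. If `n E + 1 ≤ k F'` on `W` then
  the multiplication by `t'^k` maps `O(A)` to `O(B)`; otherwise the map is zero by definition. -/
  push : ∀ mu, ℕ → T mu0 → T mu
  push_zero : ∀ mu k, push mu k 0 = 0
  push_tau : ∀ mu k x, push mu k (tau mu0 x) = tau mu (push mu k x)
  /-- at the general points of the components of the special fibre `YY'` and `mu` are isomorphic -/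
  push_cmp : ∀ mu (k : ℕ), (∀ v, n * E mu v + 1 ≤ k * mult v) → ∀ i x V, (tau mu0)^[i] x = 0 → k ≤ i →
    k * mult (cmp V) ≤ ord mu i (push mu k x) (cmp V)
  /-- `O(n N')/t'^k` is Cohen-Macaulay since `mu` is klt and `N'` is `Q`-Cartier, so a section which
  vanishes at the general points of the components is zero. The reduction modulo `t'^k` of `x` is given
  by `t'^(i-k) x`. -/
  no_emb : ∀ mu (i k : ℕ) x, k ≤ i → (tau mu)^[i] x = 0 →
    (∀ V, k * mult (cmp V) ≤ ord mu i x (cmp V)) → (tau mu)^[i - k] x = 0
  /-- `t'^k` times the difference of the liftings of `x` and of `(push x)/t'^k` lies in `t'^i O(A)`; the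
  coefficient of `K_W` in a log canonical place is `mult v - 1`, so the difference has order at least
  `(i - k - 1) mult v > 0` at `v` -/
  push_lc : ∀ mu (k : ℕ), (∀ v, n * E mu v + 1 ≤ k * mult v) → ∀ i x v, Lc v →
    (tau mu0)^[i] x = 0 → k + 2 ≤ i → (tau mu)^[i - k] (push mu k x) = 0 → ord mu0 i x v = 0 →
    ord mu (i - k) (push mu k x) v = - (n * E mu v)
  /-- `N'` is nef on `mu` -/
  Nef : Mo → Prop
  /-- the next step contracts the component `V` -/
  Con : Mo → Cmp → Prop
  /-- Birkar, Cascini, Hacon, McKernan. If no divisor is contracted and the program does not stop then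
  all the models are `Q`-factorial terminal, and the infinitely many steps give the data of `Run`. -/
  program : (∃ mu, Nef mu) ∨ (∃ mu V, Con mu V) ∨ Nonempty Run
  /-- the contracted curves cover `V`, and `N'` is negative on them -/
  con : ∀ mu V, Con mu V → ∀ i x, 0 < i → (tau mu)^[i] x = 0 → ord mu i x (cmp V) ≠ 0
  /-- The special fibre `X` of `mu` is semi log canonical with trivial canonical class. The zeros `R` of
  a section of a multiple of `N'|X` which is not zero at the general point of any log canonical centre
  give a semi log canonical pair `(X, ε R)`, so `N'|X` is semiample by the abundance theorem for semi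
  log canonical threefolds (Keel, Matsuki, McKernan 1994; Abramovich, Fong, Kollár, McKernan 1992;
  Fujino 2000). -/
  abundance : ∀ mu, Nef mu →
    (∃ i x, 0 < i ∧ (tau mu)^[i] x = 0 ∧ ∀ v, Lc v → ord mu i x v = 0) → Semi

attribute [instance] Refined.fin Refined.grp

namespace Refined

variable {n c j : ℕ} {Semi : Prop} (R : Refined n c j Semi)

/-- the bound for the difference of the pull backs does not depend on the steps -/
theorem E_le (mu : R.Mo) (v : R.Dv) : R.E mu v ≤ R.d * c * R.mult v := by
  by_contra hcon
  rw [not_le] at hcon
  rcases le_or_gt 0 (R.EH mu v) with h | h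
  · have h1 := R.E_le' mu v 1 one_pos
    linarith
  · have h2 : 0 < (R.E mu v - R.d * c * R.mult v) / (2 * -R.EH mu v) :=
      div_pos (by linarith) (by linarith)
    have h1 := R.E_le' mu v _ h2
    have h4 : (R.E mu v - R.d * c * R.mult v) / (2 * -R.EH mu v) * R.EH mu v =
        - ((R.E mu v - R.d * c * R.mult v) / 2) := by
      have : R.EH mu v ≠ 0 := h.ne
      field_simp
    rw [h4] at h1
    linarith

/-- the section vanishes at no log canonical place -/
theorem ord_s_lc (v : R.Dv) (hv : R.Lc v) : R.ord R.mu0 (R.d * (j - c * n)) R.s v = 0 := by
  obtain ⟨w, h1, h2⟩ := R.lin v hv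
  rw [R.ord_s v hv, h1, h2, sub_eq_zero]
  exact Finset.sum_congr rfl fun V _ => by rw [R.g_cmp]

theorem push_kill (mu : R.Mo) (k i : ℕ) (x : R.T R.mu0) (hx : (R.tau R.mu0)^[i] x = 0) :
    (R.tau mu)^[i] (R.push mu k x) = 0 := by
  have h : ∀ i x, (R.tau mu)^[i] (R.push mu k x) = R.push mu k ((R.tau R.mu0)^[i] x) := by
    intro i
    induction i with
    | zero => intro x; rfl
    | succ i ih => intro x; rw [Function.iterate_succ_apply, Function.iterate_succ_apply,
        ← R.push_tau, ih]
  rw [h, hx, R.push_zero]

/-- TRANSFER: on every model there is a section which vanishes at no log canonical place -/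
theorem transfer (hj : 2 * c * n + 2 < j) (mu : R.Mo) :
    ∃ i x, 0 < i ∧ (R.tau mu)^[i] x = 0 ∧ ∀ v, R.Lc v → R.ord mu i x v = 0 := by
  have hd := R.d_pos
  have hok : ∀ v, n * R.E mu v + 1 ≤ ((R.d * c * n + 1 : ℕ) : ℝ) * R.mult v := by
    intro v
    have h1 := mul_le_mul_of_nonneg_left (R.E_le mu v) (Nat.cast_nonneg (α := ℝ) n)
    have h2 : (1 : ℝ) ≤ R.mult v := by exact_mod_cast R.mult_pos v
    push_cast
    nlinarith
  have hle : R.d * c * n + 1 + 2 ≤ R.d * (j - c * n) := by
    have h1 : c * n + 3 ≤ j - c * n := by
      have : 2 * c * n = c * n + c * n := by ring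
      omega
    calc R.d * c * n + 1 + 2 = R.d * (c * n) + 3 := by ring
      _ ≤ R.d * (c * n) + R.d * 3 := by omega
      _ = R.d * (c * n + 3) := by ring
      _ ≤ _ := Nat.mul_le_mul_left _ h1
  have hkill := R.push_kill mu (R.d * c * n + 1) _ _ R.s_kill
  have hk := R.no_emb mu (R.d * (j - c * n)) (R.d * c * n + 1) (R.push mu (R.d * c * n + 1) R.s)
    (by omega) hkill (fun V => R.push_cmp mu _ hok _ _ V R.s_kill (by omega))
  refine ⟨R.d * (j - c * n) - (R.d * c * n + 1), R.push mu (R.d * c * n + 1) R.s, by omega, hk,
    fun v hv => ?_⟩
  have h1 := R.push_lc mu _ hok _ _ v hv R.s_kill hle hk (R.ord_s_lc v hv)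
  have h2 := R.ord_nonneg mu _ _ v hk
  have h3 := mul_nonneg (Nat.cast_nonneg (α := ℝ) n) (R.E_nonneg mu v)
  linarith

include R in
/-- some model has a semiample restriction -/
theorem semi (hj : 2 * c * n + 2 < j) : Semi := by
  rcases R.program with ⟨mu, h⟩ | ⟨mu, V, h⟩ | ⟨⟨Q⟩⟩
  · exact R.abundance mu h (R.transfer hj mu)
  · obtain ⟨i, x, hi, hx, hord⟩ := R.transfer hj mu
    exact absurd (hord _ (R.cmp_lc V)) (R.con mu V h i x hi hx)
  · exact Q.false.elim

end Refined

/-- The sections of the multiples of `N` modulo powers of `t`. Here `Lifts n j` means that there is a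
section of `n N` modulo `t^j` which is not zero on the special fibre of `YY`, and `Semi` that for a
class `N''`, equal to `N` on the generic fibre, on some model over some base change the restriction to
the special fibre is semiample. -/
structure Transfer (Lifts : ℕ → ℕ → Prop) (Semi : Prop) where
  /-- the vertices of the dual complex: the components with log discrepancy zero of the special fibre
  of a log resolution of `(YY, F)`. Two of them are adjacent if they meet. The complex is connected
  (Kollár, Shokurov). -/
  Vx : Type
  [fin : Finite Vx]
  adj : Vx → Vx → Prop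
  conn : ∀ a b, Relation.ReflTransGen adj a b
  /-- the sections of `n N` modulo `t^j` which are not zero on the special fibre -/
  Sec : ℕ → ℕ → Type
  sec : ∀ n j, Lifts n j → Nonempty (Sec n j)
  /-- the order of a section along a component -/
  ord : ∀ n j, Sec n j → Vx → ℕ
  /-- it is zero for some component of the special fibre of `YY` -/
  start : ∀ n j s, ∃ a, ord n j s a = 0
  /-- Let `o` be the order of `s` along `a`. The initial form of `s` along `a` is a nonzero section of
  `n N - o a` on `a`; its order along the intersection with `b` (and its multiplicity along the smaller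
  strata) is at most the degree of `n N - o a` with respect to a very ample divisor; `c ≥ 1`. -/
  c : ℕ
  step : ∀ n j s a b, adj a b → ord n j s a < j → ord n j s b ≤ c * (n + ord n j s a)
  /-- Normalise the log canonical places `v` of `(YY, F)` by `v(t) = 1`. On a cell of the dual complex
  `v(s)` is the minimum of finitely many linear functions with rational coefficients (the monomials of
  a local equation), and at most `c (n + o)`, `o` the order along a vertex, by the same argument. There
  is a subdivision of the dual complex on the cells of which `v(s)` is linear, and a base change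
  `t = t'^d` such that the vertices are integral. After the base change the subdivision is the dual
  complex of a `Q`-factorial dlt model with trivial canonical class and reduced special fibre
  (Kempf, Knudsen, Mumford, Saint-Donat 1973; Birkar, Cascini, Hacon, McKernan 2010; de Fernex, Kollár,
  Xu 2017); `G` is the sum of the orders of `s` times the components. -/
  refine : ∀ n j (s : Sec n j) C, 0 < n → (∀ a, ord n j s a ≤ C * n) → c * (C + 1) * n < j →
    Nonempty (Refined n (c * (C + 1)) j Semi)

attribute [instance] Transfer.fin

namespace Transfer

variable {Lifts : ℕ → ℕ → Prop} {Semi : Prop} (S : Transfer Lifts Semi)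

/-- the orders of a section which can be lifted far grow at most linearly -/
theorem exists_bound : ∃ C : ℕ, ∀ n j (s : S.Sec n j), C * n < j → ∀ a, S.ord n j s a ≤ C * n := by
  classical
  have h1 : ∀ p : S.Vx × S.Vx, ∃ C : ℕ, ∀ n j (s : S.Sec n j), C * n < j →
      S.ord n j s p.1 = 0 → S.ord n j s p.2 ≤ C * n := by
    rintro ⟨a, b⟩
    have h := S.conn a b
    induction h with
    | refl => exact ⟨0, fun n j s _ h0 => by simp only at h0 ⊢; omega⟩
    | tail _ hadj ih =>
      obtain ⟨C, hC⟩ := ih
      refine ⟨C + S.c * (1 + C), fun n j s hj h0 => ?_⟩
      simp only at h0 hC ⊢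
      have e1 : (C + S.c * (1 + C)) * n = C * n + S.c * (n + C * n) := by ring
      rw [e1] at hj ⊢
      have h2 := hC n j s (by omega) h0
      refine (S.step n j s _ _ hadj (by omega)).trans ?_
      have h3 := Nat.mul_le_mul_left S.c (Nat.add_le_add_left h2 n)
      omega
  choose C hC using h1
  obtain ⟨M, hM⟩ := (Set.finite_range C).bddAbove
  refine ⟨M, fun n j s hj b => ?_⟩
  obtain ⟨a, ha⟩ := S.start n j s
  have h2 := Nat.mul_le_mul_right n (hM ⟨(a, b), rfl⟩ : C (a, b) ≤ M)
  exact (hC (a, b) n j s (by omega) ha).trans h2

include S in
/-- **Proposition S.** -/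
theorem semi : ∃ C : ℕ, ∀ n j, 0 < n → C * n < j → Lifts n j → Semi := by
  obtain ⟨C, hC⟩ := S.exists_bound
  refine ⟨C + 2 * (S.c * (C + 1)) + 2, fun n j hn hj hL => ?_⟩
  obtain ⟨s⟩ := S.sec n j hL
  have e1 : (C + 2 * (S.c * (C + 1)) + 2) * n = C * n + 2 * (S.c * (C + 1)) * n + 2 * n := by ring
  rw [e1] at hj
  have h1 := hC n j s (by omega)
  have e2 : 2 * (S.c * (C + 1)) * n = S.c * (C + 1) * n + S.c * (C + 1) * n := by ring
  obtain ⟨R⟩ := S.refine n j s C hn h1 (by omega)
  exact R.semi (by omega)

end Transfer

end Pool.Agent.H81.MN
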